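import Pool.Agent.Work.MP_f96e05_an.NR.Main

set_option autoImplicit false

namespace Pool.Agent.Results.MP_f96e05_an.ClarkRadius

open Pool.Agent.Work.MP_f96e05_an Pool.Agent.Work.MP_f96e05_an.NR

/-- The numerical radius `w` of `C_φ` on `H²` for an inner function `φ`, in terms of the Clark
measures of `φ`: `2 w` is the least `E` for which all approximants of the continued fraction are
positive on the circle, and the thresholds of the first `k` approximants converge to `2 w` with an
explicit error bound. -/
theorem result (φ : ℂ → ℂ) (hφ : IsInnerFn φ) :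
    (∃ μ, IsClark φ μ) ∧ ∀ μ, IsClark φ μ →
      IsLeast {E : ℝ | ∀ k : ℕ, ∀ ζ : ℂ, ‖ζ‖ = 1 → 0 < frac μ E k ζ}
        (2 * sSup (norm '' numRange φ)) ∧
      (∀ k : ℕ, level μ k ≤ 2 * sSup (norm '' numRange φ) ∧
        2 * sSup (norm '' numRange φ) * Real.cos (Real.pi / (k + 2)) ≤ level μ k) ∧
      Filter.Tendsto (fun k => level μ k / 2) Filter.atTop (nhds (sSup (norm '' numRange φ))) :=
  ⟨exists_clark hφ.1 hφ.2.1, fun _ hμ => radius hφ hμ⟩

end Pool.Agent.Results.MP_f96e05_an.ClarkRadius
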