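import Pool.Agent.Work.MP_f96e05_an.FS.M3

set_option autoImplicit false

namespace Pool.Agent.Results.MP_f96e05_an.OpenUnlessInfiniteShift

open Pool.Agent.Work.MP_f96e05_an

/-- Let `φ` be an inner function with `φ 0 ≠ 0` and boundary Denjoy-Wolff point `ω`,
`φ'(ω) = α ≤ 1`. In the parabolic case `α = 1` assume finite shift: the orbit of `0` stays outside
some horodisc at `ω`. Then the numerical range of `C_φ` on `H²` is the open disc of radius
`w(C_φ)`; in particular it is never closed. -/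
theorem result (φ : ℂ → ℂ) (hφ : IsInnerFn φ) (h0 : φ 0 ≠ 0) (ω : ℂ) (hω : ‖ω‖ = 1) (α : ℝ)
    (hα : α ≤ 1)
    (hder : Filter.Tendsto (fun r : ℝ => (φ ((r : ℂ) * ω) - ω) / ((r : ℂ) * ω - ω))
      (nhdsWithin 1 (Set.Iio 1)) (nhds (α : ℂ)))
    (hfs : α = 1 → ∃ C : ℝ, ∀ n : ℕ, (1 - ‖φ^[n] 0‖ ^ 2) / ‖ω - φ^[n] 0‖ ^ 2 ≤ C) :
    numRange φ = Metric.ball 0 (sSup (norm '' numRange φ)) ∧ ¬ IsClosed (numRange φ) := by
  rcases hα.lt_or_eq with h | h
  · exact hyperbolic_open hφ hω h hder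
  · subst h
    exact finite_shift_open hφ hω (by simpa using hder) h0 (hfs rfl)

end Pool.Agent.Results.MP_f96e05_an.OpenUnlessInfiniteShift
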