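import Pool.Agent.Work.MP_f96e05_an.NR2.Thresh

set_option autoImplicit false

namespace Pool.Agent.Results.MP_f96e05_an.Threshold

open Pool.Agent.Work.MP_f96e05_an Pool.Agent.Work.MP_f96e05_an.NR

/-- There is a threshold `Δ α` with `2 < Δ α` and `4 + α - 1 / α ≤ Δ α ≤ 2 (1 + α)` such that for
every inner `φ` with boundary fixed point `ω` of angular derivative `α < 1` the numerical radius of
`C_φ` on `H²` equals `1 / √α` exactly when `φ` is an automorphism whose second fixed point `ω'` has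
`|ω - ω'|² ≥ Δ α`. -/
theorem result : ∃ Δ : ℝ → ℝ,
    (∀ α : ℝ, 0 < α → α < 1 → 2 < Δ α ∧ 4 + α - 1 / α ≤ Δ α ∧ Δ α ≤ 2 * (1 + α)) ∧
    ∀ (φ : ℂ → ℂ) (ω : ℂ) (α : ℝ), IsInnerFn φ → ‖ω‖ = 1 → α < 1 →
      Filter.Tendsto (fun r : ℝ => (φ ((r : ℂ) * ω) - ω) / ((r : ℂ) * ω - ω))
        (nhdsWithin 1 (Set.Iio 1)) (nhds (α : ℂ)) →
      (sSup (norm '' numRange φ) = 1 / Real.sqrt α ↔ ∃ l a ω' : ℂ, ‖l‖ = 1 ∧ ‖a‖ < 1 ∧
        (∀ z : ℂ, ‖z‖ < 1 → φ z = l * (z - a) / (1 - (starRingEnd ℂ) a * z)) ∧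
        ‖ω'‖ = 1 ∧ ω' ≠ ω ∧ l * (ω' - a) / (1 - (starRingEnd ℂ) a * ω') = ω' ∧
        Δ α ≤ ‖ω - ω'‖ ^ 2) :=
  thresh_iff

end Pool.Agent.Results.MP_f96e05_an.Threshold
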